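import Pool.Agent.H47.SQ.Targets3

/-!
# Random k-SAT (MP_c62aed_lc): row XTA
-/

set_option autoImplicit false

namespace Pool.Agent.H27.SQ3

open Finset Pool.Agent.H97.RK Pool.Agent.H41.SS Pool.Agent.H47.SR

theorem pf_XTA (hXL1 : T_XL1) : T_XTA := by
  intro n k m F t t₁ d u u₁ x huu hGd y A B W J hSta hW0 hyx hpre
  induction B using Finset.induction_on with
  | empty =>
    intro _
    refine ⟨y, W, J, subset_refl _, hW0, fun u _ => rfl, hyx, ?_⟩
    rw [Finset.union_empty]
    exact hSta
  | insert v B _ ih =>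
    intro hcard
    have hsub : (A ∪ B ∪ pre n (n - u)).card ≤ (A ∪ insert v B ∪ pre n (n - u)).card := by
      apply Finset.card_le_card
      exact Finset.union_subset_union_left
        (Finset.union_subset_union_right (Finset.subset_insert v B))
    obtain ⟨y₁, W₁, J₁, hW, hW1, hy, hyx₁, hS₁⟩ := ih (by omega)
    have hins : A ∪ insert v B = insert v (A ∪ B) := Finset.union_insert v A B
    obtain ⟨y', W', J', hW', hW1', hy', hyx', hS'⟩ := hXL1 n k m F t t₁ d u u₁ x huu hGd y₁
      (A ∪ B) W₁ J₁ v hS₁ hW1 hyx₁ (hpre.trans Finset.subset_union_left)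
      (by rw [← hins]; exact hcard)
    refine ⟨y', W', J', hW.trans hW', hW1', fun w hw => ?_, hyx', ?_⟩
    · rw [← hy w hw]
      apply hy'
      rw [Finset.mem_insert]
      right
      rw [Finset.mem_union] at hw ⊢
      rcases hw with h | h
      · exact Or.inl (Finset.mem_union_left _ h)
      · exact Or.inr (hW h)
    · rw [hins]
      exact hS'

end Pool.Agent.H27.SQ3
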